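import Pool.Agent.VU.Top.Sub
import Pool.Agent.VU.F1
import Pool.Agent.VU.Num.Ms
import Pool.Agent.V7.Top.Prop
import Pool.Agent.V8.Top.Lin

/-!
# VU: exactness on the top level
-/

set_option autoImplicit false
set_option linter.unusedSectionVars false

namespace Pool.Agent.VU

open Finset Module Pool.Agent.H51.TB Pool.Agent.V7 Pool.Agent.V7.ST Topology
open Pool.Agent.V8 (top_genA)

/-- T3. Exactness on the level `k = M - 1`. -/
theorem propU_of (M c t k : ℕ) (hM : 2 ≤ M) (hk : k + 1 = M) (hc : 1 ≤ c) (ht : t < c)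
    (A : ℕ → ℕ → ℝ) (hA : ∀ k i, 0 < A k i)
    (hW : ∀ u : ℕ → ℕ, (∀ s, 1 ≤ u s) → ∀ n : ℕ, k * c ≤ n → 1 ≤ n → IsI A c k n (wU c t u n))
    (hO : OJU M c t k) (hG : GAMMA M c k) (hBe : BETA M c k) (hV : VASI A M c k) :
    PROPU M c t k := by
  classical
  obtain ⟨eA, heA, nA, hOj⟩ := hO
  obtain ⟨eG, heG, nG, hG⟩ := gammaU M c t k hG
  obtain ⟨δ, hδ, eB, heB, nB, hBe⟩ := betaU M c t k hBe
  obtain ⟨K', hK, nV, hV⟩ := hV
  have hD : 1 ≤ c ^ k := Nat.one_le_pow _ _ hc
  have hC : 0 < (2 * M - 1).choose M := Nat.choose_pos (by omega)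
  set Q : ℝ := ((2 * M - 1).choose M : ℝ) * (M.factorial : ℝ) with hQdef
  have hQ : 0 < Q := by
    have h1 : (0 : ℝ) < (2 * M - 1).choose M := by exact_mod_cast hC
    positivity
  obtain ⟨e₀, he₀, he₀1, n₀, hn₀1, hnum⟩ := nums (M := M) (D := c ^ k) (r := 2 * c ^ k - 2)
    (by omega) hD hQ (lt_min hδ one_pos) (min_le_right δ 1) hK
  refine ⟨min e₀ (min eA (min eG eB)), lt_min he₀ (lt_min heA (lt_min heG heB)),
    n₀ + nA + nG + nB + nV + k * c + t + 1 + M, fun n hn u hu s hs => ?_⟩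
  set e := min e₀ (min eA (min eG eB)) with he
  have he0 : 0 ≤ e := (lt_min he₀ (lt_min heA (lt_min heG heB))).le
  have e1 : e ≤ e₀ := min_le_left _ _
  have e2 : e ≤ eA := (min_le_right _ _).trans (min_le_left _ _)
  have e3 : e ≤ eG := (min_le_right _ _).trans ((min_le_right _ _).trans (min_le_left _ _))
  have e4 : e ≤ eB := (min_le_right _ _).trans ((min_le_right _ _).trans (min_le_right _ _))
  have hkK : k * c + t < n := by omega
  have hkc : k * c < n := by omega
  set τ₀ := Kd.ord M (range k) with hτ₀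
  set r := s.filter fun τ => τ ≠ τ₀ with hr
  set N := s.count τ₀ with hN
  have hsr : s = r + Multiset.replicate N τ₀ := by
    have h1 := Multiset.filter_add_not (fun τ => τ ≠ τ₀) s
    have h2 : (s.filter fun τ => ¬ (τ ≠ τ₀)) = Multiset.replicate N τ₀ := by
      rw [hN, ← Multiset.filter_eq']
      refine Multiset.filter_congr fun τ _ => ?_
      exact not_not
    rw [h2] at h1
    exact h1.symm
  have hrc : Cls0 M c k n e fun τ => r.count τ := hs.toCls0.flt
  have hrok : ∀ τ ∈ r, τ ∈ kds M k := fun τ hτ => hrc.ok τ (Multiset.count_ne_zero.2 hτ)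
  have hr0 : τ₀ ∉ r := fun h => (Multiset.mem_filter.1 h).2 rfl
  obtain ⟨rest, hrest, hgd⟩ := exists_conf (LSU c t u M n k) r
  -- the virtual dimension
  have hWn : IsI A c k n (wU c t u n) := hW u hu n (by omega) (by omega)
  have hvr := hV n (by omega) (wU c t u n) hWn e he0 (e1.trans he₀1) (fun τ => r.count τ) hrc
    (Multiset.count_eq_zero.2 hr0)
  rw [← vdI_eq_vNI M (wU c t u n) k r hrok] at hvr
  have hle : vdI M (wU c t u n) k r ≤ gM (LSU c t u M n k) r :=
    vdU_le_gMU c t u (by omega) ht hkK r fun τ hτ => mem_kds.1 (hrok τ hτ)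
  have hge : (gM (LSU c t u M n k) r : ℤ) ≤ vdI M (wU c t u n) k r :=
    hOj n (by omega) u hu r (hrc.wk e2) hr0
  have hvs : vdI M (wU c t u n) k s = vdI M (wU c t u n) k r - N * (c ^ k : ℕ) := by
    unfold vdI
    rw [hsr, Multiset.map_add, Multiset.sum_add, Multiset.map_replicate, Multiset.sum_replicate]
    have h1 : wtI M (wU c t u n) τ₀ = c ^ k := by
      show wU c t u n (M - 1) (range k) = c ^ k
      have h2 := hWn.self (range k) subset_rfl
      rw [card_range] at h2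
      rw [show M - 1 = k by omega, h2]
    rw [h1, smul_eq_mul]
    push_cast
    ring
  -- the numbers
  obtain ⟨N₀, hN1, hN2, hN3⟩ := hnum n (by omega) e he0 e1
  have hX0 : (0 : ℝ) ≤ (n : ℝ) ^ M / Q := by positivity
  have h3 : c ^ k * (N₀ + 1) ≤ (LSU c t u M n k).gd rest := by
    rw [hgd]
    have h4 : ((c ^ k * (N₀ + 1) : ℕ) : ℝ) ≤ ((vdI M (wU c t u n) k r : ℤ) : ℝ) := by
      push_cast
      push_cast at hN3
      have h5 := (abs_le.1 hvr).1
      linarith
    have h5 : ((c ^ k * (N₀ + 1) : ℕ) : ℤ) ≤ vdI M (wU c t u n) k r := by exact_mod_cast h4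
    have h6 := h5.trans hle
    exact_mod_cast h6
  have hcnt : (fun τ => ((univ : Finset (Fin r.toList.length)).val.map rest).count τ) =
      fun τ => r.count τ := by
    rw [hrest]
  have key := top_genA (isB_phn c k n hc hkc.le) hk (ExU c t u n (2 * M - 1) k)
    (filter_subset _ _) rest
    (hG n (by omega) u _ rest (by rw [hcnt]; exact hrc.wk e3)) N₀
    (top_h1 (by omega) (Nat.sub_le _ _) (by omega) hN1) (by
      obtain ⟨p₁, hp₁⟩ := hBe n (by omega) u _ (phn c k n hkc.le) (isB_phn c k n hc hkc.le) _ rest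
        (by rw [hcnt]; exact hrc.wk e4) (fun i h => hr0 (by
          rw [← hrest, Multiset.mem_map]
          exact ⟨i, Finset.mem_univ_val i, h⟩))
      refine ⟨p₁, hp₁.mono fun p hp F hF hF' => ?_⟩
      have h4 := hp F hF hF'
      have hf : 1 ≤ finrank ℂ F := Nat.one_le_iff_ne_zero.2 fun h => hF (Submodule.finrank_eq_zero.1 h)
      have hf' : (1 : ℝ) ≤ finrank ℂ F := by exact_mod_cast hf
      have h5 : ((finrank ℂ F * (c ^ k - finrank ℂ F) : ℕ) : ℝ) ≤ finrank ℂ F * (c ^ k : ℕ) := by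
        have : finrank ℂ F * (c ^ k - finrank ℂ F) ≤ finrank ℂ F * c ^ k :=
          Nat.mul_le_mul_left _ (Nat.sub_le _ _)
        exact_mod_cast this
      have h6 : (1 - δ) * (finrank ℂ F : ℝ) * ((n : ℝ) ^ M / Q) ≤
          (1 - min δ 1) * (finrank ℂ F : ℝ) * ((n : ℝ) ^ M / Q) := by
        apply mul_le_mul_of_nonneg_right _ hX0
        apply mul_le_mul_of_nonneg_right _ (by linarith)
        have := min_le_left δ 1
        linarith
      have h7 : (finrank ℂ F : ℝ) * ((1 - min δ 1) * ((n : ℝ) ^ M / Q) + (c ^ k : ℕ)) <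
          finrank ℂ F * N₀ := mul_lt_mul_of_pos_left hN2 (by linarith)
      have h8 : ((finrank ℂ (Top.SF (phn c k n hkc.le) ((LSU c t u M n k).V rest p) F) +
          finrank ℂ F * (c ^ k - finrank ℂ F) : ℕ) : ℝ) < ((finrank ℂ F * N₀ : ℕ) : ℝ) := by
        rw [Nat.cast_add, Nat.cast_mul (finrank ℂ F) N₀]
        nlinarith
      exact_mod_cast h8) h3 N
  -- conclusion
  have hgs : gM (LSU c t u M n k) s =
      (LSU c t u M n k).gd (Sum.elim rest fun _ : Fin N => τ₀) := by
    rw [gd_eq_gM, map_elim, hrest, ST.map_const, Fintype.card_fin, ← hsr]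
  rw [hgs, hvs]
  rw [hgd] at key
  have h9 : ((gM (LSU c t u M n k) r - c ^ k * N : ℕ) : ℤ) ≤
      max 0 ((gM (LSU c t u M n k) r : ℤ) - (c ^ k * N : ℕ)) := by
    omega
  have h10 : ((LSU c t u M n k).gd (Sum.elim rest fun _ : Fin N => τ₀) : ℤ) ≤
      max 0 ((gM (LSU c t u M n k) r : ℤ) - (c ^ k * N : ℕ)) := by
    refine le_trans ?_ h9
    exact_mod_cast key
  refine h10.trans ?_
  apply max_le_max le_rfl
  have h11 : ((c ^ k * N : ℕ) : ℤ) = N * (c ^ k : ℕ) := by
    push_cast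
    ring
  rw [h11]
  linarith

end Pool.Agent.VU
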