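import Pool.Agent.VU.Defs
import Pool.Agent.V8.Top.Sub

/-!
# VU: GAMMA and BETA
-/

set_option autoImplicit false
set_option linter.unusedSectionVars false

namespace Pool.Agent.VU

open Finset Module MvPolynomial Pool.Agent.H51.TB Pool.Agent.V7 Pool.Agent.V7.ST
  Pool.Agent.H54.V7 Topology
open Pool.Agent.V8 (ext0 ext0_mem ext0_not ext0_inj ext0_V finrank_SF_le)

private theorem Sub_ExU (c t : ℕ) (u : ℕ → ℕ) (n d j : ℕ) : ExU c t u n d j ⊆ Ex (blk c n) d j :=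
  filter_subset _ _

/-- T1 (Pool/Agent/VU/Top/Sub.lean) -/
theorem gammaU (M c t k : ℕ) (hG : GAMMA M c k) :
    ∃ e : ℝ, 0 < e ∧ ∃ n₀ : ℕ, ∀ n : ℕ, n₀ ≤ n → ∀ (u : ℕ → ℕ) (κ : Type) [Fintype κ]
      (rest : κ → Kd), Cls0 M c k n e (fun τ => ((univ : Finset κ).val.map rest).count τ) →
      Gn κ (Fin n ⊕ Fin n) fun p => ∀ f ∈ (LSU c t u M n k).V rest p,
        (∀ a : {a // a ∈ ExU c t u n (2 * M - 1) k},
          ∑ s ∈ univ.filter (fun s => blk c n s < k), a.1 s ≤ k → f a = 0) → f = 0 := by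
  obtain ⟨e, he, n₀, h⟩ := hG
  refine ⟨e, he, n₀, fun n hn u κ _ rest hr => ?_⟩
  obtain ⟨G, hG0, hG⟩ := h n hn κ rest hr
  refine ⟨G, hG0, fun p hp f hf hf0 => ?_⟩
  have h1 := hG p hp (ext0 _ _ f) (ext0_V (Sub_ExU c t u n (2 * M - 1) k) rest p hf)
    fun a ha => by
      by_cases h2 : a.1 ∈ ExU c t u n (2 * M - 1) k
      · rw [ext0_mem f h2]
        exact hf0 ⟨a.1, h2⟩ ha
      · exact ext0_not f h2
  refine ext0_inj (Sub_ExU c t u n (2 * M - 1) k) ?_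
  rw [h1, map_zero]

/-- T2 (Pool/Agent/VU/Top/Sub.lean) -/
theorem betaU (M c t k : ℕ) (hB : BETA M c k) :
    ∃ δ : ℝ, 0 < δ ∧ ∃ e : ℝ, 0 < e ∧ ∃ n₀ : ℕ, ∀ n : ℕ, n₀ ≤ n → ∀ u : ℕ → ℕ,
    ∀ (m : ℕ) (φ : (Fin k × Fin c) ⊕ Fin m ≃ Fin n), Top.IsB φ (blk c n) →
    ∀ (κ : Type) [Fintype κ] (rest : κ → Kd),
    Cls0 M c k n e (fun τ => ((univ : Finset κ).val.map rest).count τ) →
    (∀ i, rest i ≠ Kd.ord M (range k)) →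
    ∃ p₁ : κ → Fin n ⊕ Fin n → ℂ, ∀ᶠ p in 𝓝 p₁, ∀ F : Submodule ℂ ((Fin k → Fin c) → ℂ),
      F ≠ ⊥ → F ≠ ⊤ → (finrank ℂ (Top.SF φ ((LSU c t u M n k).V rest p) F) : ℝ) ≤
        (1 - δ) * finrank ℂ F * ((n : ℝ) ^ M / (((2 * M - 1).choose M : ℝ) * (M.factorial : ℝ))) := by
  obtain ⟨δ, hδ, e, he, n₀, h⟩ := hB
  refine ⟨δ, hδ, e, he, n₀, fun n hn u m φ hφ κ _ rest hr hk => ?_⟩
  obtain ⟨p₁, hp₁⟩ := h n hn m φ hφ κ rest hr hk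
  refine ⟨p₁, hp₁.mono fun p hp F hF0 hF1 => ?_⟩
  refine le_trans ?_ (hp F hF0 hF1)
  exact_mod_cast finrank_SF_le φ (Sub_ExU c t u n (2 * M - 1) k) rest p F

end Pool.Agent.VU
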